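import Mathlib
import Pool.Agent.BEO.Stmts
import Pool.Agent.Helper94_BEB.COF

/-!
# Squad BEO, row COO: cut off in a ball of `ℝ^d`
-/

set_option autoImplicit false

namespace Pool.Agent.BEO.H95

open Set Filter Topology MeasureTheory
open scoped InnerProductSpace ENNReal
open Pool.Agent.BE01 Pool.Agent.BEO
open Pool.Agent.BEB.H94 (lp_lim ph ph_smooth ph_nonneg ph_le_one ph_zero ph_one ph_bd)

noncomputable section

variable {d : ℕ}

/-- the distance to the sphere -/
def sq (R : ℝ) (x : En d) : ℝ := R ^ 2 - ‖x‖ ^ 2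

theorem isOpen_BB (R : ℝ) : IsOpen (BB d R) := Metric.isOpen_ball

theorem BB_sub (R : ℝ) : BB d R ⊆ Metric.closedBall (0 : En d) R := Metric.ball_subset_closedBall

theorem mem_BB {R : ℝ} {x : En d} : x ∈ BB d R ↔ ‖x‖ < R := mem_ball_zero_iff

instance fin_BB (R : ℝ) : IsFiniteMeasure (mu (BB d R)) := by
  constructor
  unfold mu
  rw [Measure.restrict_apply_univ]
  exact (measure_mono (BB_sub R)).trans_lt measure_closedBall_lt_top

theorem sq_smooth (R : ℝ) : ContDiff ℝ ((⊤ : ℕ∞) : WithTop ℕ∞) (sq (d := d) R) := by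
  unfold sq
  exact contDiff_const.sub (contDiff_norm_sq ℝ)

theorem sq_deriv (R : ℝ) (x : En d) : HasFDerivAt (sq R) (-(2 • (innerSL ℝ) x)) x := by
  have h1 := (hasStrictFDerivAt_norm_sq x).hasFDerivAt
  have h2 := h1.const_sub (R ^ 2)
  exact h2

/-- the cut off -/
def et (R : ℝ) (n : ℕ) (x : En d) : ℝ := ph n (sq R x)

theorem et_smooth (R : ℝ) (n : ℕ) : ContDiff ℝ ((⊤ : ℕ∞) : WithTop ℕ∞) (et (d := d) R n) := by
  unfold et
  exact (ph_smooth n).comp (sq_smooth R)

theorem et_nonneg (R : ℝ) (n : ℕ) (x : En d) : 0 ≤ et R n x := ph_nonneg _ _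

theorem et_le_one (R : ℝ) (n : ℕ) (x : En d) : et R n x ≤ 1 := ph_le_one _ _

theorem et_fderiv (R : ℝ) (n : ℕ) (x : En d) : ‖fderiv ℝ (et R n) x‖ ≤
    |deriv (ph n) (sq R x)| * (2 * ‖x‖) := by
  have h1 : HasFDerivAt (et R n)
      (deriv (ph n) (sq R x) • (-(2 • (innerSL ℝ) x) : En d →L[ℝ] ℝ)) x :=
    HasDerivAt.comp_hasFDerivAt (h₂ := ph n) x
      ((ph_smooth n).differentiable (by simp) (sq R x)).hasDerivAt (sq_deriv R x)
  rw [h1.fderiv, norm_smul, norm_neg]
  have a3 : ‖2 • (innerSL ℝ) x‖ ≤ 2 * ‖x‖ := by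
    rw [two_smul]
    refine (norm_add_le _ _).trans ?_
    rw [innerSL_apply_norm]
    linarith
  rw [Real.norm_eq_abs (deriv _ _)]
  exact mul_le_mul_of_nonneg_left a3 (abs_nonneg _)

theorem sq_pos {R : ℝ} {x : En d} (hx : x ∈ BB d R) : 0 < sq R x := by
  unfold sq
  have h1 : ‖x‖ ^ 2 < R ^ 2 := pow_lt_pow_left₀ (mem_BB.1 hx) (norm_nonneg _) (by norm_num)
  linarith

theorem et_ev (R : ℝ) {x : En d} (hx : x ∈ BB d R) :
    ∀ᶠ n in atTop, et R n =ᶠ[𝓝 x] fun _ => 1 := by
  have hs : 0 < sq R x := sq_pos hx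
  have t1 : Tendsto (fun n : ℕ => ((n : ℝ) + 1) * (sq R x / 2)) atTop atTop :=
    (tendsto_natCast_atTop_atTop.atTop_add tendsto_const_nhds).atTop_mul_const (by linarith)
  filter_upwards [t1.eventually_ge_atTop 2] with n h1
  have e1 : ∀ᶠ y in 𝓝 x, sq R x / 2 < sq R y :=
    (sq_smooth R).continuous.continuousAt.eventually (lt_mem_nhds (by linarith))
  filter_upwards [e1] with y g1
  have hn : (0 : ℝ) < (n : ℝ) + 1 := by positivity
  exact ph_one n _ (h1.trans (mul_le_mul_of_nonneg_left g1.le hn.le))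

/-- the compact set which contains the support of the cut off -/
def KK (R : ℝ) (n : ℕ) : Set (En d) := {x | 1 ≤ ((n : ℝ) + 1) * sq R x}

theorem KK_closed (R : ℝ) (n : ℕ) : IsClosed (KK (d := d) R n) :=
  isClosed_le continuous_const (continuous_const.mul (sq_smooth R).continuous)

theorem KK_sub (R : ℝ) (n : ℕ) (hR : 0 < R) : KK R n ⊆ BB d R := by
  intro x hx
  have hn : (0 : ℝ) < (n : ℝ) + 1 := by positivity
  have hx' : 1 ≤ ((n : ℝ) + 1) * sq R x := hx
  have h1 : 0 < sq R x := by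
    by_contra hc
    have := mul_nonpos_of_nonneg_of_nonpos hn.le (not_lt.1 hc)
    linarith
  rw [mem_BB]
  unfold sq at h1
  exact lt_of_pow_lt_pow_left₀ 2 hR.le (by linarith)

theorem KK_compact (R : ℝ) (n : ℕ) (hR : 0 < R) : IsCompact (KK (d := d) R n) :=
  (isCompact_closedBall (0 : En d) R).of_isClosed_subset (KK_closed R n)
    ((KK_sub R n hR).trans (BB_sub R))

theorem et_zero (R : ℝ) (n : ℕ) (x : En d) (hx : x ∉ KK R n) : et R n x = 0 := by
  have hx' : ¬ (1 ≤ ((n : ℝ) + 1) * sq R x) := hx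
  exact ph_zero n _ (not_le.1 hx').le

theorem tst (R : ℝ) (hR : 0 < R) (ψ : En d → ℝ) (hψ : ContDiff ℝ ((⊤ : ℕ∞) : WithTop ℕ∞) ψ) (n : ℕ) :
    Tst (BB d R) (fun x => et R n x * ψ x) := by
  have h0 : ∀ x, x ∉ KK R n → et R n x * ψ x = 0 := fun x hx => by rw [et_zero R n x hx, zero_mul]
  refine ⟨(et_smooth R n).mul hψ, HasCompactSupport.intro (KK_compact R n hR) h0, ?_⟩
  refine (closure_minimal ?_ (KK_closed R n)).trans (KK_sub R n hR)
  intro x hx
  by_contra hc
  exact hx (h0 x hc)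

theorem grad_norm (F : En d → ℝ) (x : En d) : ‖gradient F x‖ = ‖fderiv ℝ F x‖ := by
  unfold gradient
  exact LinearIsometryEquiv.norm_map _ _

theorem grad_cont (F : En d → ℝ) (hF : ContDiff ℝ ((⊤ : ℕ∞) : WithTop ℕ∞) F) :
    Continuous (gradient F) := by
  unfold gradient
  exact (LinearIsometryEquiv.continuous _).comp (hF.continuous_fderiv (by simp))

theorem coo : CooStmt := by
  intro d R C ψ _ hR hψ hbd
  obtain ⟨K, hK, hKb⟩ := ph_bd
  obtain ⟨B1, hB1⟩ := (isCompact_closedBall (0 : En d) R).exists_bound_of_continuousOn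
    hψ.continuous.continuousOn
  obtain ⟨B2, hB2⟩ := (isCompact_closedBall (0 : En d) R).exists_bound_of_continuousOn
    (grad_cont ψ hψ).continuousOn
  have hae : ∀ᵐ x ∂(mu (BB d R)), x ∈ BB d R := ae_restrict_mem (isOpen_BB R).measurableSet
  have hB10 : 0 ≤ B1 := (norm_nonneg _).trans (hB1 0 (by
    rw [mem_closedBall_zero_iff, norm_zero]; exact hR.le))
  have hB20 : 0 ≤ B2 := (norm_nonneg _).trans (hB2 0 (by
    rw [mem_closedBall_zero_iff, norm_zero]; exact hR.le))
  -- the difference of the values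
  have d1 : ∀ n x, x ∈ BB d R → ‖et R n x * ψ x - ψ x‖ ≤ B1 := by
    intro n x hx
    have h1 : et R n x * ψ x - ψ x = (et R n x - 1) * ψ x := by ring
    rw [h1, norm_mul]
    have h2 : ‖et R n x - 1‖ ≤ 1 := by
      rw [Real.norm_eq_abs, abs_le]
      constructor <;> linarith [et_nonneg R n x, et_le_one R n x]
    calc ‖et R n x - 1‖ * ‖ψ x‖ ≤ 1 * B1 :=
          mul_le_mul h2 (hB1 x (BB_sub R hx)) (norm_nonneg _) zero_le_one
      _ = B1 := one_mul _
  -- the difference of the gradients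
  have d2 : ∀ n x, x ∈ BB d R → ‖gradient (fun y => et R n y * ψ y) x - gradient ψ x‖ ≤
      |C| * K * (2 * R) + B2 := by
    intro n x hx
    have e1 : gradient (fun y => et R n y * ψ y) x - gradient ψ x =
        (InnerProductSpace.toDual ℝ (En d)).symm
          (fderiv ℝ (fun y => et R n y * ψ y) x - fderiv ℝ ψ x) := by
      unfold gradient
      rw [map_sub]
    rw [e1, LinearIsometryEquiv.norm_map]
    have e2 : fderiv ℝ (fun y => et R n y * ψ y) x =
        et R n x • fderiv ℝ ψ x + ψ x • fderiv ℝ (et R n) x :=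
      fderiv_mul ((et_smooth R n).differentiable (by simp) x) (hψ.differentiable (by simp) x)
    have e3 : et R n x • fderiv ℝ ψ x + ψ x • fderiv ℝ (et R n) x - fderiv ℝ ψ x =
        ψ x • fderiv ℝ (et R n) x + (et R n x - 1) • fderiv ℝ ψ x := by
      rw [sub_smul, one_smul]
      abel
    rw [e2, e3]
    refine (norm_add_le _ _).trans (add_le_add ?_ ?_)
    · rw [norm_smul, Real.norm_eq_abs]
      have hs : 0 < sq R x := sq_pos hx
      have b1' : |ψ x| ≤ |C| * sq R x :=
        (hbd x hx).trans (mul_le_mul_of_nonneg_right (le_abs_self C) hs.le)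
      have c1 := hKb n (sq R x) hs
      have n1 : 0 ≤ |deriv (ph n) (sq R x)| := abs_nonneg _
      have n3 : 0 ≤ |C| := abs_nonneg _
      have q1 : |ψ x| * |deriv (ph n) (sq R x)| ≤ |C| * K := by
        calc |ψ x| * |deriv (ph n) (sq R x)|
            ≤ (|C| * sq R x) * |deriv (ph n) (sq R x)| := mul_le_mul_of_nonneg_right b1' n1
          _ = |C| * (sq R x * |deriv (ph n) (sq R x)|) := by ring
          _ ≤ |C| * K := mul_le_mul_of_nonneg_left c1 n3
      calc |ψ x| * ‖fderiv ℝ (et R n) x‖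
          ≤ |ψ x| * (|deriv (ph n) (sq R x)| * (2 * ‖x‖)) :=
            mul_le_mul_of_nonneg_left (et_fderiv R n x) (abs_nonneg _)
        _ = (|ψ x| * |deriv (ph n) (sq R x)|) * (2 * ‖x‖) := by ring
        _ ≤ (|C| * K) * (2 * R) :=
            mul_le_mul q1 (by linarith [mem_BB.1 hx]) (by positivity) (by positivity)
    · rw [norm_smul, ← grad_norm]
      have h2 : ‖et R n x - 1‖ ≤ 1 := by
        rw [Real.norm_eq_abs, abs_le]
        constructor <;> linarith [et_nonneg R n x, et_le_one R n x]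
      calc ‖et R n x - 1‖ * ‖gradient ψ x‖ ≤ 1 * B2 :=
            mul_le_mul h2 (hB2 x (BB_sub R hx)) (norm_nonneg _) zero_le_one
        _ = B2 := one_mul _
  -- membership
  have m1 : MemLp ψ 2 (mu (BB d R)) := by
    refine MemLp.of_bound hψ.continuous.aestronglyMeasurable B1 ?_
    filter_upwards [hae] with x hx
    exact hB1 x (BB_sub R hx)
  have m2 : MemLp (gradient ψ) 2 (mu (BB d R)) := by
    refine MemLp.of_bound (grad_cont ψ hψ).aestronglyMeasurable B2 ?_
    filter_upwards [hae] with x hx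
    exact hB2 x (BB_sub R hx)
  have m3 : ∀ n, MemLp (fun x => et R n x * ψ x) 2 (mu (BB d R)) := by
    intro n
    refine MemLp.of_bound ((et_smooth R n).mul hψ).continuous.aestronglyMeasurable (B1 + B1) ?_
    filter_upwards [hae] with x hx
    have h1 := norm_add_le (et R n x * ψ x - ψ x) (ψ x)
    rw [sub_add_cancel] at h1
    exact h1.trans (add_le_add (d1 n x hx) (hB1 x (BB_sub R hx)))
  have m4 : ∀ n, MemLp (gradient (fun x => et R n x * ψ x)) 2 (mu (BB d R)) := by
    intro n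
    refine MemLp.of_bound (grad_cont _ ((et_smooth R n).mul hψ)).aestronglyMeasurable
      ((|C| * K * (2 * R) + B2) + B2) ?_
    filter_upwards [hae] with x hx
    have h1 := norm_add_le (gradient (fun x => et R n x * ψ x) x - gradient ψ x) (gradient ψ x)
    rw [sub_add_cancel] at h1
    exact h1.trans (add_le_add (d2 n x hx) (hB2 x (BB_sub R hx)))
  -- limits
  have l1 := lp_lim (μ := mu (BB d R)) (fun n x => et R n x * ψ x) ψ m3 m1 B1
    (fun n => by filter_upwards [hae] with x hx using d1 n x hx)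
    (by
      filter_upwards [hae] with x hx
      refine tendsto_const_nhds.congr' ?_
      filter_upwards [et_ev R hx] with n hn
      rw [hn.eq_of_nhds, one_mul])
  have l2 := lp_lim (μ := mu (BB d R)) (fun n => gradient (fun x => et R n x * ψ x)) (gradient ψ) m4 m2
    (|C| * K * (2 * R) + B2)
    (fun n => by filter_upwards [hae] with x hx using d2 n x hx)
    (by
      filter_upwards [hae] with x hx
      refine tendsto_const_nhds.congr' ?_
      filter_upwards [et_ev R hx] with n hn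
      have h1 : (fun y => et R n y * ψ y) =ᶠ[𝓝 x] ψ := by
        filter_upwards [hn] with y hy
        rw [hy, one_mul]
      exact h1.gradient.eq_of_nhds.symm)
  refine ⟨m1.toLp ψ, m2.toLp (gradient ψ), ?_, m1.coeFn_toLp, m2.coeFn_toLp⟩
  refine mem_closure_of_tendsto (l1.prodMk_nhds l2) (Eventually.of_forall fun n => ?_)
  exact ⟨fun x => et R n x * ψ x, tst R hR ψ hψ n, (m3 n).coeFn_toLp, (m4 n).coeFn_toLp⟩

end

end Pool.Agent.BEO.H95
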